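import Pool.Agent.Y161.Ord.Local

/-! The density of the places at which all the basic motives are ordinary. -/

set_option autoImplicit false
set_option linter.all false

namespace Pool.Agent.Y161.Ord

open NumberField IsDedekindDomain Polynomial Filter Topology
open Pool.Agent.W401.Cheb Pool.Agent.W528.Ord
open Pool.Agent.W528.Ord.MultSystem (IsDeg1 IsOver norm_mem)
open Pool.Agent.W528.Ord.MotSystem (Bad Ex bad_dens admProportion adm_dens admProportion_pos)

section overK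

variable {K : Type} [Field K] [NumberField K] {ℓ : ℕ} [Fact ℓ.Prime]
variable {ι : Type} [Fintype ι] (A : ι → MotSystem K ℓ) (χ : GK K →* (PadicAlgCl ℓ)ˣ)
  (S : Finset ℕ) (hA : ∀ i, (A i).IsMotive χ S)

/-- the basic motives have no excess at a maximal ideal above `v` -/
def Clean (v : HeightOneSpectrum (𝓞 K)) : Prop :=
  ∃ Q : Ideal (𝓞 (AlgebraicClosure K)), IsOver Q v ∧
    ∀ i, ∀ (σ : (A i).E →+* AlgebraicClosure K) (k : ℕ), (A i).Vertex σ k →
      ¬ LocDvd Q (Ideal.absNorm v.asIdeal) ((A i).hp σ k + 1) ((A i).cof v ((A i).n - k) σ)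

include hA in
theorem main_clean : Tendsto (dens fun v : HeightOneSpectrum (𝓞 K) => IsDeg1 S v ∧
      (∃ γ : GK K, IsFrob v γ ∧ ∀ i, (A i).Admissible γ) ∧ ¬ Clean A v) atTop (𝓝 0) := by
  classical
  have hun := dens_biUnion (Finset.univ.sigma (fun i : ι => Finset.range (A i).n))
    (fun x : (Σ _ : ι, ℕ) => (A x.1).Bad S x.2) (fun x _ => bad_dens (hA x.1) x.2)
  refine squeeze_zero (fun N => dens_nonneg _ _) (fun N => dens_mono ?_ N) hun
  rintro v ⟨hv, ⟨γ, ⟨Q, hQ, hQv, hγ⟩, hadm⟩, hnew⟩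
  by_contra hcon
  apply hnew
  refine ⟨Q, ⟨hQ, hQv⟩, ?_⟩
  intro i σ k hk hd
  apply hcon
  refine ⟨⟨i, k⟩, ?_, hv, Q, γ, σ, ⟨hQ, hQv⟩, hγ, hadm i, hk, hd⟩
  rw [Finset.mem_sigma]
  exact ⟨Finset.mem_univ _, Finset.mem_range.mpr hk.2.1⟩

include hA in
theorem lower_clean (ε : ℝ) (hε : 0 < ε) :
    ∀ᶠ N : ℕ in atTop, admProportion A - ε ≤ dens (fun v : HeightOneSpectrum (𝓞 K) =>
      IsDeg1 S v ∧ Clean A v) N := by
  have hlim := adm_dens A χ S hA
  have h1 := main_clean A χ S hA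
  have h2 := dens_not_prime (K := K)
  have h3 := dens_finite _ (finite_norm_mem (K := K) S)
  have e0 := hlim.eventually (lt_mem_nhds (show admProportion A - ε / 4 < admProportion A by linarith))
  have e1 := h1.eventually (gt_mem_nhds (show (0:ℝ) < ε / 4 by positivity))
  have e2 := h2.eventually (gt_mem_nhds (show (0:ℝ) < ε / 4 by positivity))
  have e3 := h3.eventually (gt_mem_nhds (show (0:ℝ) < ε / 4 by positivity))
  filter_upwards [e0, e1, e2, e3] with N h0 h1 h2 h3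
  have hle : dens (fun v : HeightOneSpectrum (𝓞 K) => ∃ γ : GK K, IsFrob v γ ∧ ∀ i, (A i).Admissible γ) N ≤
      dens (fun v : HeightOneSpectrum (𝓞 K) => IsDeg1 S v ∧ Clean A v) N +
      (dens (fun v : HeightOneSpectrum (𝓞 K) => IsDeg1 S v ∧
      (∃ γ : GK K, IsFrob v γ ∧ ∀ i, (A i).Admissible γ) ∧ ¬ Clean A v) N +
      (dens (fun v : HeightOneSpectrum (𝓞 K) => ¬ (Ideal.absNorm v.asIdeal).Prime) N +
      dens (fun v : HeightOneSpectrum (𝓞 K) => Ideal.absNorm v.asIdeal ∈ S) N)) := by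
    refine le_trans (dens_mono (Q := fun v => _ ∨ (_ ∨ (_ ∨ _))) ?_ N)
      (le_trans (dens_or _ _ N) (add_le_add_right (le_trans (dens_or _ _ N)
        (add_le_add_right (dens_or _ _ N) _)) _))
    intro v hv
    by_cases hp : (Ideal.absNorm v.asIdeal).Prime
    · by_cases hS : Ideal.absNorm v.asIdeal ∈ S
      · exact Or.inr (Or.inr (Or.inr hS))
      · by_cases hd : Clean A v
        · exact Or.inl ⟨⟨hp, hS⟩, hd⟩
        · exact Or.inr (Or.inl ⟨⟨hp, hS⟩, hv, hd⟩)
    · exact Or.inr (Or.inr (Or.inl hp))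
  linarith

end overK

/-- positive lower density of the places of the small field -/
theorem lower_down {K₀ K : Type} [Field K₀] [NumberField K₀] [Field K] [NumberField K] [Algebra K₀ K]
    {ℓ : ℕ} [Fact ℓ.Prime] {ι : Type} [Fintype ι] (A : ι → MotSystem K ℓ)
    (χ : GK K →* (PadicAlgCl ℓ)ˣ) (S : Finset ℕ) (hA : ∀ i, (A i).IsMotive χ S)
    (hγ : ∃ γ : GK K, ∀ i, (A i).Admissible γ) (P₀ : HeightOneSpectrum (𝓞 K₀) → Prop)
    (hP : ∀ (v : HeightOneSpectrum (𝓞 K)) (v₀ : HeightOneSpectrum (𝓞 K₀)), IsDeg1 S v → Clean A v →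
      v.asIdeal.comap (algebraMap (𝓞 K₀) (𝓞 K)) = v₀.asIdeal → P₀ v₀) :
    0 < lowerDensity P₀ := by
  classical
  have hpos := admProportion_pos A hγ
  have hev := lower_clean A χ S hA (admProportion A / 2) (by positivity)
  have hd : (0 : ℝ) < (Module.finrank ℚ K : ℝ) := by exact_mod_cast Module.finrank_pos
  apply lowerDensity_pos _ (admProportion A / 2 / (Module.finrank ℚ K : ℝ)) (by positivity)
  filter_upwards [hev] with N hN
  have h1 := dens_under (K₀ := K₀) (fun v : HeightOneSpectrum (𝓞 K) => IsDeg1 S v ∧ Clean A v)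
      P₀ (fun v hv => hv.1.1) (fun v v₀ hv h0 => hP v v₀ hv.1 hv.2 h0) N
  rw [div_le_iff₀ hd, mul_comm]
  have h2 : admProportion A / 2 ≤ admProportion A - admProportion A / 2 := by linarith
  exact (h2.trans hN).trans h1

end Pool.Agent.Y161.Ord
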