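import Pool.Agent.Y161.Ord.Semi
import Pool.Agent.W528.Ord.AllEll

/-! Ordinary reduction of tensor factors of summands of tensor constructions, at a single place. -/

set_option autoImplicit false
set_option linter.all false

namespace Pool.Agent.Y161.Ord

open NumberField IsDedekindDomain Polynomial Filter Topology
open Pool.Agent.W401.Cheb Pool.Agent.W528.Ord
open Pool.Agent.W528.Ord.MultSystem (IsDeg1 IsOver norm_mem)

/-- The polynomial `F` is monic, its constant coefficient is not zero, and its Newton polygon at `p` lies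
on or above the Hodge polygon with the slopes `H`: the `k`-th coefficient from the top is divisible by `p`
to the power of the sum of the `k` smallest elements of `H`. -/
def AboveHodge (p : ℕ) (F : ℤ[X]) (H : Multiset ℕ) : Prop :=
  F.Monic ∧ F.natDegree = Multiset.card H ∧ F.coeff 0 ≠ 0 ∧
    ∀ k ≤ Multiset.card H, (p : ℤ) ^ ((H.sort (· ≤ ·)).take k).sum ∣ F.coeff (Multiset.card H - k)

section integer

variable {p : ℕ} [hp : Fact p.Prime]

theorem norm_int_le {a : ℤ} {m : ℕ} (h : (p : ℤ) ^ m ∣ a) : ‖((a : ℤ) : PadicAlgCl p)‖ ≤ (1 / (p : ℝ)) ^ m := by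
  obtain ⟨b, rfl⟩ := h
  rw [Int.cast_mul, Int.cast_pow, Int.cast_natCast, norm_mul, norm_pow, norm_p]
  have h1 : ‖((b : ℤ) : PadicAlgCl p)‖ ≤ 1 := IsUltrametricDist.norm_intCast_le_one _ _
  have h3 : 0 ≤ (1 / (p : ℝ)) ^ m := by positivity
  nlinarith

/-- the absolute values of the roots -/
noncomputable def rn (p : ℕ) [Fact p.Prime] (F : ℤ[X]) : Multiset ℝ :=
  (F.map (Int.castRingHom (PadicAlgCl p))).roots.map fun y => ‖y‖

/-- the absolute values given by the slopes -/
noncomputable def hn (p : ℕ) (H : Multiset ℕ) : Multiset ℝ := H.map fun a => (1 / (p : ℝ)) ^ a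

theorem hn_pos (H : Multiset ℕ) : ∀ x ∈ hn p H, 0 < x := by
  intro x hx
  obtain ⟨a, -, rfl⟩ := Multiset.mem_map.mp hx
  have : (0:ℝ) < p := by exact_mod_cast hp.out.pos
  positivity

theorem rn_pos {F : ℤ[X]} {H : Multiset ℕ} (h : AboveHodge p F H) : ∀ x ∈ rn p F, 0 < x := by
  intro x hx
  obtain ⟨y, hy, rfl⟩ := Multiset.mem_map.mp hx
  rw [norm_pos_iff]
  rintro rfl
  have h1 := isRoot_of_mem_roots hy
  rw [IsRoot, ← coeff_zero_eq_eval_zero, coeff_map, eq_intCast] at h1
  exact h.2.2.1 (by exact_mod_cast h1)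

theorem card_rn {F : ℤ[X]} {H : Multiset ℕ} (h : AboveHodge p F H) :
    Multiset.card (rn p F) = Multiset.card H := by
  unfold rn
  rw [Multiset.card_map, ← h.2.1, ← h.1.natDegree_map (Int.castRingHom (PadicAlgCl p))]
  exact splits_iff_card_roots.mp (IsAlgClosed.splits _)

theorem card_hn (H : Multiset ℕ) : Multiset.card (hn p H) = Multiset.card H := by
  unfold hn
  rw [Multiset.card_map]

theorem mx_rn_le {F : ℤ[X]} {H : Multiset ℕ} (h : AboveHodge p F H) (r : ℝ) (hr : 0 < r) :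
    mx (rn p F) r ≤ mx (hn p H) r := by
  have hp1 : (1 : ℝ) < p := by exact_mod_cast hp.out.one_lt
  have hq1 : 1 / (p : ℝ) < 1 := by
    rw [div_lt_one (by linarith)]
    exact hp1
  have key := mx_le_of_coeff (F.map (Int.castRingHom (PadicAlgCl p))) (Multiset.card H) (h.1.map _)
    (by rw [h.1.natDegree_map, h.2.1]) (IsAlgClosed.splits _) (1 / (p : ℝ)) (by positivity) hq1
    (H.sort (· ≤ ·)) (by rw [Multiset.length_sort]) (fun k hk => by
      rw [coeff_map, eq_intCast]
      exact norm_int_le (h.2.2.2 k hk)) hr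
  have e : (((H.sort (· ≤ ·)).map (fun a => (1 / (p : ℝ)) ^ a) : List ℝ) : Multiset ℝ) = hn p H := by
    unfold hn
    conv_rhs => rw [← Multiset.sort_eq H (· ≤ ·)]
    rw [Multiset.map_coe]
  rw [e] at key
  exact key

end integer

variable {K : Type} [Field K] [NumberField K] {ℓ : ℕ} [Fact ℓ.Prime]
variable {ι : Type} [Fintype ι] {A : ι → MotSystem K ℓ} {χ : GK K →* (PadicAlgCl ℓ)ˣ}
  {S : Finset ℕ} (hA : ∀ i, (A i).IsMotive χ S)

include hA in
/-- **the local theorem** -/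
theorem local_ordinary {v : HeightOneSpectrum (𝓞 K)} (hv : IsDeg1 S v)
    {Q : Ideal (𝓞 (AlgebraicClosure K))} (hQ : IsOver Q v)
    (hno : ∀ i, ∀ (σ : (A i).E →+* AlgebraicClosure K) (k : ℕ), (A i).Vertex σ k →
      ¬ LocDvd Q (Ideal.absNorm v.asIdeal) ((A i).hp σ k + 1) ((A i).cof v ((A i).n - k) σ))
    (F FB FC : ℤ[X]) (H HB HC : Multiset ℕ) (hF : AboveHodge (Ideal.absNorm v.asIdeal) F H)
    (hFB : AboveHodge (Ideal.absNorm v.asIdeal) FB HB) (hFC : AboveHodge (Ideal.absNorm v.asIdeal) FC HC)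
    (hB0 : HB ≠ 0) (Φ : MvPolynomial (Σ i, (A i).E →+* AlgebraicClosure K) ℕ)
    (hΦ : eigen (F.map (Int.castRingHom (AlgebraicClosure K))) *
        eigen (FB.map (Int.castRingHom (AlgebraicClosure K))) +
        eigen (FC.map (Int.castRingHom (AlgebraicClosure K))) =
      MvPolynomial.eval₂ (Nat.castRingHom _) (fun x => eigen ((A x.1).poly v x.2)) Φ)
    (hΦH : hodge H * hodge HB + hodge HC =
      MvPolynomial.eval₂ (Nat.castRingHom _) (fun x => hodge ((A x.1).h x.2 : Multiset ℕ)) Φ) :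
    NewtonSlopes (Ideal.absNorm v.asIdeal) F H := by
  classical
  obtain ⟨p, hpe⟩ : ∃ p, Ideal.absNorm v.asIdeal = p := ⟨_, rfl⟩
  have hpp : p.Prime := hpe ▸ hv.1
  haveI : Fact p.Prime := ⟨hpp⟩
  have hpQ := norm_mem hv.1 hQ.2
  rw [hpe] at hpQ
  obtain ⟨τ, hτ⟩ := exists_tau (p := p) Q hQ.1 hpQ
  set ψ : MonoidAlgebra ℕ (AlgebraicClosure K) →+* MonoidAlgebra ℕ ℝ :=
    MonoidAlgebra.mapDomainRingHom ℕ (((normHom : PadicAlgCl p →*₀ ℝ) : PadicAlgCl p →* ℝ).comp
      (τ : AlgebraicClosure K →* PadicAlgCl p)) with hψ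
  have e1 : τ.comp (Int.castRingHom (AlgebraicClosure K)) = Int.castRingHom (PadicAlgCl p) :=
    RingHom.ext_int _ _
  have hint : ∀ G : ℤ[X], ψ (eigen (G.map (Int.castRingHom (AlgebraicClosure K)))) = cls (rn p G) := by
    intro G
    rw [hψ, map_eigen, Polynomial.map_map, e1]
    rfl
  have hA' : ∀ x : (Σ i, (A i).E →+* AlgebraicClosure K), ψ (eigen ((A x.1).poly v x.2)) =
      toReal (1 / (p : ℝ)) (hodge ((A x.1).h x.2 : Multiset ℕ)) := by
    rintro ⟨i, σ⟩
    rw [hψ, map_eigen, toReal_hodge]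
    have h1 := MotSystem.roots_part (hA i) hv hQ hpe hτ σ (fun k hk => hno i σ k hk)
    have h2 : ((A i).poly v σ).map τ = (A i).poly v (τ.comp σ) := by
      unfold MotSystem.poly
      rw [Polynomial.map_map]
      rfl
    rw [h2, h1]
  have hL := congrArg ψ hΦ
  have hR := congrArg (toReal (1 / (p : ℝ))) hΦH
  rw [map_add, map_mul, hint, hint, hint, MvPolynomial.eval₂_comp_left] at hL
  rw [map_add, map_mul, toReal_hodge, toReal_hodge, toReal_hodge, MvPolynomial.eval₂_comp_left] at hR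
  have e2 : ψ.comp (Nat.castRingHom (MonoidAlgebra ℕ (AlgebraicClosure K))) =
      (toReal (1 / (p : ℝ))).comp (Nat.castRingHom ℕ[X]) := by
    ext n
    simp
  have e3 : (ψ ∘ fun x : (Σ i, (A i).E →+* AlgebraicClosure K) => eigen ((A x.1).poly v x.2)) =
      (toReal (1 / (p : ℝ))) ∘ fun x => hodge ((A x.1).h x.2 : Multiset ℕ) := funext hA'
  rw [e2, e3, ← hR, ← cls_cv, ← cls_cv, ← cls_add, ← cls_add] at hL
  have hmul := cls_inj hL
  rw [hpe] at hF hFB hFC ⊢
  have key := factor_eq (rn_pos hF) (hn_pos (p := p) H) (rn_pos hFB) (by rw [card_rn hF, card_hn])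
    (by rw [card_rn hFB, card_hn]) (by
      intro h0
      apply hB0
      rw [← Multiset.card_eq_zero, ← card_rn hFB, h0, Multiset.card_zero])
    (mx_rn_le hF) (mx_rn_le hFB) (mx_rn_le hFC) hmul
  exact ⟨inferInstance, key⟩

end Pool.Agent.Y161.Ord
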