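import Pool.Agent.W518.DN.NP
import Pool.Agent.W528.Ord.Newton

/-! Multisets of positive real numbers, their products, and the comparison of Newton polygons. -/

set_option autoImplicit false
set_option linter.all false

namespace Pool.Agent.Y161.Ord

open Polynomial

/-- the product of the numbers `max r x`, a multiplicative form of the Newton polygon -/
noncomputable def mx (M : Multiset ℝ) (r : ℝ) : ℝ := (M.map fun x => max r x).prod

/-- the multiset of all products -/
noncomputable def cv (M N : Multiset ℝ) : Multiset ℝ := N.bind fun y => M.map fun x => x * y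

theorem mx_zero (r : ℝ) : mx 0 r = 1 := by simp [mx]

theorem mx_cons (a : ℝ) (M : Multiset ℝ) (r : ℝ) : mx (a ::ₘ M) r = max r a * mx M r := by
  simp [mx]

theorem mx_add (M N : Multiset ℝ) (r : ℝ) : mx (M + N) r = mx M r * mx N r := by
  simp [mx]

theorem mx_pos (M : Multiset ℝ) {r : ℝ} (hr : 0 < r) : 0 < mx M r := by
  induction M using Multiset.induction_on with
  | empty => rw [mx_zero]; exact one_pos
  | cons a M ih =>
    rw [mx_cons]
    exact mul_pos (lt_max_of_lt_left hr) ih

theorem cv_zero (M : Multiset ℝ) : cv M 0 = 0 := by simp [cv]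

theorem cv_cons (M N : Multiset ℝ) (y : ℝ) : cv M (y ::ₘ N) = (M.map fun x => x * y) + cv M N := by
  simp [cv]

theorem mx_scale (M : Multiset ℝ) {y : ℝ} (hy : 0 < y) (r : ℝ) :
    mx (M.map fun x => x * y) r = y ^ (Multiset.card M) * mx M (r / y) := by
  induction M using Multiset.induction_on with
  | empty => simp [mx]
  | cons a M ih =>
    rw [Multiset.map_cons, mx_cons, mx_cons, ih, Multiset.card_cons, pow_succ]
    have : max r (a * y) = y * max (r / y) a := by
      rw [mul_max_of_nonneg _ _ hy.le, mul_div_cancel₀ _ hy.ne', mul_comm y a]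
    rw [this]
    ring

theorem mx_cv (M N : Multiset ℝ) (hN : ∀ y ∈ N, 0 < y) (r : ℝ) :
    mx (cv M N) r = (N.map fun y => y ^ (Multiset.card M) * mx M (r / y)).prod := by
  induction N using Multiset.induction_on with
  | empty => simp [cv_zero, mx_zero]
  | cons y N ih =>
    rw [cv_cons, mx_add, ih (fun z hz => hN z (Multiset.mem_cons_of_mem hz)), Multiset.map_cons,
      Multiset.prod_cons, mx_scale M (hN y (Multiset.mem_cons_self y N))]

theorem cv_comm (M N : Multiset ℝ) : cv M N = cv N M := by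
  unfold cv
  rw [Multiset.bind_map_comm]
  congr 1
  funext y
  congr 1
  funext x
  ring

theorem prod_le {β : Type*} (s : Multiset β) (f g : β → ℝ) (h : ∀ x ∈ s, 0 < f x ∧ f x ≤ g x) :
    0 < (s.map f).prod ∧ (s.map f).prod ≤ (s.map g).prod := by
  induction s using Multiset.induction_on with
  | empty => simp
  | cons a s ih =>
    obtain ⟨h1, h2⟩ := ih (fun x hx => h x (Multiset.mem_cons_of_mem hx))
    obtain ⟨h3, h4⟩ := h a (Multiset.mem_cons_self a s)
    rw [Multiset.map_cons, Multiset.prod_cons, Multiset.map_cons, Multiset.prod_cons]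
    exact ⟨mul_pos h3 h1, mul_le_mul h4 h2 h1.le (h3.le.trans h4)⟩

theorem eq_of_prod_eq {β : Type*} (s : Multiset β) (f g : β → ℝ) (h : ∀ x ∈ s, 0 < f x ∧ f x ≤ g x)
    (he : (s.map f).prod = (s.map g).prod) : ∀ x ∈ s, f x = g x := by
  classical
  intro x hx
  obtain ⟨t, rfl⟩ := Multiset.exists_cons_of_mem hx
  obtain ⟨h1, h2⟩ := prod_le t f g (fun y hy => h y (Multiset.mem_cons_of_mem hy))
  obtain ⟨h3, h4⟩ := h x hx
  rw [Multiset.map_cons, Multiset.prod_cons, Multiset.map_cons, Multiset.prod_cons] at he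
  by_contra hne
  have hlt : f x < g x := lt_of_le_of_ne h4 hne
  have h5 : f x * (t.map f).prod < g x * (t.map f).prod := mul_lt_mul_of_pos_right hlt h1
  have h6 : g x * (t.map f).prod ≤ g x * (t.map g).prod :=
    mul_le_mul_of_nonneg_left h2 (h3.le.trans h4)
  linarith

theorem mx_cv_le {M M' N : Multiset ℝ} (hN : ∀ y ∈ N, 0 < y) (hc : Multiset.card M = Multiset.card M')
    (h : ∀ r : ℝ, 0 < r → mx M r ≤ mx M' r) {r : ℝ} (hr : 0 < r) :
    mx (cv M N) r ≤ mx (cv M' N) r := by
  rw [mx_cv M N hN, mx_cv M' N hN, ← hc]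
  refine (prod_le _ _ _ fun y hy => ?_).2
  have hy0 := hN y hy
  have h1 : 0 < mx M (r / y) := mx_pos _ (div_pos hr hy0)
  exact ⟨by positivity, mul_le_mul_of_nonneg_left (h _ (div_pos hr hy0)) (by positivity)⟩

theorem mx_eq_of_cv {M M' N : Multiset ℝ} (hN : ∀ y ∈ N, 0 < y) (hN0 : N ≠ 0)
    (hc : Multiset.card M = Multiset.card M')
    (h : ∀ r : ℝ, 0 < r → mx M r ≤ mx M' r)
    (he : ∀ r : ℝ, 0 < r → mx (cv M N) r = mx (cv M' N) r) {r : ℝ} (hr : 0 < r) :
    mx M r = mx M' r := by
  obtain ⟨y, hy⟩ := Multiset.exists_mem_of_ne_zero hN0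
  have hy0 := hN y hy
  have h1 := he (r * y) (mul_pos hr hy0)
  rw [mx_cv M N hN, mx_cv M' N hN, ← hc] at h1
  have h2 := eq_of_prod_eq _ _ _ (fun z hz => by
    have hz0 := hN z hz
    have h3 : 0 < mx M (r * y / z) := mx_pos _ (div_pos (mul_pos hr hy0) hz0)
    exact ⟨by positivity, mul_le_mul_of_nonneg_left (h _ (div_pos (mul_pos hr hy0) hz0)) (by positivity)⟩) h1 y hy
  rw [mul_div_cancel_right₀ _ hy0.ne'] at h2
  exact mul_left_cancel₀ (pow_ne_zero _ hy0.ne') h2

/-- a multiset of positive real numbers is determined by its `mx` -/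
theorem eq_of_mx {M N : Multiset ℝ} (hM : ∀ x ∈ M, 0 < x) (hN : ∀ x ∈ N, 0 < x)
    (hc : Multiset.card M = Multiset.card N) (h : ∀ r : ℝ, 0 < r → mx M r = mx N r) : M = N := by
  obtain ⟨r1, hr1, h1⟩ := Pool.Agent.W528.Ord.exists_lower _ hM
  obtain ⟨r2, hr2, h2⟩ := Pool.Agent.W528.Ord.exists_lower _ hN
  exact Pool.Agent.W518.DN.eq_of_prod_max (min r1 r2) (lt_min hr1 hr2) _ M N rfl hc.symm
    (fun x hx => (min_le_left _ _).trans (h1 x hx)) (fun x hx => (min_le_right _ _).trans (h2 x hx))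
    (fun r hr => h r (lt_of_lt_of_le (lt_min hr1 hr2) hr))

/-- **the comparison**: if the polygons of `V`, `B`, `C` lie above those of `V'`, `B'`, `C'` and
`V ⊗ B ⊕ C` and `V' ⊗ B' ⊕ C'` have the same polygon, then `V` and `V'` have the same polygon -/
theorem factor_eq {V V' B B' C C' : Multiset ℝ} (hV : ∀ x ∈ V, 0 < x) (hV' : ∀ x ∈ V', 0 < x)
    (hB : ∀ x ∈ B, 0 < x) (hcV : Multiset.card V = Multiset.card V')
    (hcB : Multiset.card B = Multiset.card B') (hB0 : B ≠ 0)
    (h1 : ∀ r : ℝ, 0 < r → mx V r ≤ mx V' r) (h2 : ∀ r : ℝ, 0 < r → mx B r ≤ mx B' r)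
    (h3 : ∀ r : ℝ, 0 < r → mx C r ≤ mx C' r) (h : cv V B + C = cv V' B' + C') : V = V' := by
  apply eq_of_mx hV hV' hcV
  intro r hr
  refine mx_eq_of_cv hB hB0 hcV h1 (fun r hr => ?_) hr
  have e1 : mx (cv V B) r ≤ mx (cv V' B) r := mx_cv_le hB hcV h1 hr
  have e2 : mx (cv V' B) r ≤ mx (cv V' B') r := by
    rw [cv_comm V' B, cv_comm V' B']
    exact mx_cv_le hV' hcB h2 hr
  have e3 : mx (cv V B) r * mx C r = mx (cv V' B') r * mx C' r := by
    rw [← mx_add, ← mx_add, h]
  have hpC := mx_pos C hr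
  have hpC' := mx_pos C' hr
  have hp1 := mx_pos (cv V B) hr
  have hp2 := mx_pos (cv V' B') hr
  have e4 : mx (cv V B) r * mx C r ≤ mx (cv V B) r * mx C' r :=
    mul_le_mul_of_nonneg_left (h3 r hr) hp1.le
  have e5 : mx (cv V' B') r ≤ mx (cv V B) r := by
    have : mx (cv V' B') r * mx C' r ≤ mx (cv V B) r * mx C' r := e3 ▸ e4
    exact le_of_mul_le_mul_right this hpC'
  linarith

variable {L : Type*} [NormedField L] [IsUltrametricDist L]

/-- the Newton polygon of a polynomial whose coefficients are small enough lies above -/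
theorem mx_le_of_coeff (f : L[X]) (n : ℕ) (hm : f.Monic) (hn : f.natDegree = n) (hs : f.Splits) (q : ℝ)
    (hq0 : 0 < q) (hq1 : q < 1) (l : List ℕ) (hlen : l.length = n)
    (hle : ∀ k ≤ n, ‖f.coeff (n - k)‖ ≤ q ^ (l.take k).sum) {r : ℝ} (hr : 0 < r) :
    mx (f.roots.map fun y => ‖y‖) r ≤ mx ((l.map (fun a => q ^ a) : List ℝ) : Multiset ℝ) r := by
  classical
  set v : AbsoluteValue L ℝ := NormedField.toAbsoluteValue L with hv
  have hvn : ∀ x : L, v x = ‖x‖ := fun x => rfl
  have hna : IsNonarchimedean v := fun x y => IsUltrametricDist.norm_add_le_max x y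
  have hprod : f = (f.roots.map fun y => X - C y).prod := by
    conv_lhs => rw [hs.eq_prod_roots, hm.leadingCoeff, C_1, one_mul]
  have h1 := Pool.Agent.W518.DN.gn_linear (v := v) hna hr f.roots
  rw [← hprod] at h1
  have h2 : mx (f.roots.map fun y => ‖y‖) r = (f.roots.map fun y => max r (v y)).prod := by
    unfold mx
    rw [Multiset.map_map]
    rfl
  have h3 : mx ((l.map (fun a => q ^ a) : List ℝ) : Multiset ℝ) r = (l.map fun a => max r (q ^ a)).prod := by
    unfold mx
    rw [Multiset.map_coe, Multiset.prod_coe, List.map_map]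
    rfl
  rw [h2, ← h1, h3]
  obtain ⟨i, hi⟩ := f.exists_eq_gaussNorm v r
  rw [hi, hvn]
  by_cases hin : i ≤ n
  · have h3 := hle (n - i) (by omega)
    rw [show n - (n - i) = i by omega] at h3
    have h5 : (l.map fun a => max r (q ^ a)).prod = ((l.take (n - i)).map fun a => max r (q ^ a)).prod *
        ((l.drop (n - i)).map fun a => max r (q ^ a)).prod := by
      rw [← List.prod_append, ← List.map_append, List.take_append_drop]
    rw [h5]
    have h6 := Pool.Agent.W528.Ord.prod_max_ge q r hq0 hr (l.take (n - i))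
    have h7 := Pool.Agent.W528.Ord.prod_max_ge q r hq0 hr (l.drop (n - i))
    have h8 : (l.drop (n - i)).length = i := by
      rw [List.length_drop, hlen]; omega
    rw [h8] at h7
    exact mul_le_mul (h3.trans h6.1) h7.2.1 (by positivity) h6.2.2.le
  · have : f.coeff i = 0 := coeff_eq_zero_of_natDegree_lt (by omega)
    rw [this, norm_zero, zero_mul]
    exact (Pool.Agent.W528.Ord.prod_max_ge q r hq0 hr l).2.2.le

end Pool.Agent.Y161.Ord
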