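import Pool.Agent.Y161.Ord.Multi
import Mathlib.Algebra.MonoidAlgebra.MapDomain

/-! Multisets as elements of the semiring `ℕ[M]`; the semiring of Frobenius eigenvalues and the
semiring of Hodge polynomials. -/

set_option autoImplicit false
set_option linter.all false

namespace Pool.Agent.Y161.Ord

open Polynomial

section cls

variable {M N : Type*} [CommMonoid M] [CommMonoid N]

/-- the class of a multiset in the semiring `ℕ[M]` of formal sums -/
noncomputable def cls (s : Multiset M) : MonoidAlgebra ℕ M :=
  (s.map fun x => MonoidAlgebra.single x (1 : ℕ)).sum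

theorem cls_zero : cls (0 : Multiset M) = 0 := by simp [cls]

theorem cls_cons (a : M) (s : Multiset M) : cls (a ::ₘ s) = MonoidAlgebra.single a 1 + cls s := by
  simp [cls]

theorem cls_add (s t : Multiset M) : cls (s + t) = cls s + cls t := by
  simp [cls]

theorem coeff_cls [DecidableEq M] (s : Multiset M) (x : M) : (cls s).coeff x = s.count x := by
  induction s using Multiset.induction_on with
  | empty => simp [cls_zero]
  | cons a s ih =>
    rw [cls_cons, MonoidAlgebra.coeff_add, Finsupp.add_apply, ih, MonoidAlgebra.coeff_single,
      Finsupp.single_apply, Multiset.count_cons]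
    by_cases h : x = a
    · subst h
      simp [add_comm]
    · rw [if_neg (fun e => h e.symm), if_neg h]
      simp

theorem cls_inj {s t : Multiset M} (h : cls s = cls t) : s = t := by
  classical
  ext x
  rw [← coeff_cls, ← coeff_cls, h]

theorem map_cls (f : M →* N) (s : Multiset M) :
    MonoidAlgebra.mapDomainRingHom ℕ f (cls s) = cls (s.map f) := by
  induction s using Multiset.induction_on with
  | empty => simp [cls_zero]
  | cons a s ih =>
    rw [cls_cons, map_add, ih, Multiset.map_cons, cls_cons]
    congr 1
    exact MonoidAlgebra.mapDomain_single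

end cls

theorem cls_mul_single (s : Multiset ℝ) (y : ℝ) :
    cls (s.map fun x => x * y) = cls s * MonoidAlgebra.single y 1 := by
  induction s using Multiset.induction_on with
  | empty => simp [cls_zero]
  | cons a s ih2 =>
    rw [Multiset.map_cons, cls_cons, ih2, cls_cons, add_mul, MonoidAlgebra.single_mul_single, one_mul]

theorem cls_cv (s t : Multiset ℝ) : cls (cv s t) = cls s * cls t := by
  induction t using Multiset.induction_on with
  | empty => simp [cv_zero, cls_zero]
  | cons y t ih =>
    rw [cv_cons, cls_add, ih, cls_cons, mul_add, cls_mul_single]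

/-- the Hodge polynomial of a multiset of slopes -/
noncomputable def hodge (H : Multiset ℕ) : ℕ[X] := (H.map fun a => (X : ℕ[X]) ^ a).sum

/-- the slopes become absolute values -/
noncomputable def toReal (q : ℝ) : ℕ[X] →+* MonoidAlgebra ℕ ℝ :=
  eval₂RingHom (Nat.castRingHom _) (MonoidAlgebra.single q 1)

theorem toReal_hodge (q : ℝ) (H : Multiset ℕ) : toReal q (hodge H) = cls (H.map fun a => q ^ a) := by
  induction H using Multiset.induction_on with
  | empty => simp [hodge, cls_zero]
  | cons a s ih =>
    have : hodge (a ::ₘ s) = X ^ a + hodge s := by simp [hodge]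
    rw [this, map_add, ih, Multiset.map_cons, cls_cons]
    congr 1
    rw [toReal, coe_eval₂RingHom, eval₂_X_pow, MonoidAlgebra.single_pow, one_pow]

/-- the class of the roots of a polynomial -/
noncomputable def eigen {L : Type*} [Field L] (f : L[X]) : MonoidAlgebra ℕ L := cls f.roots

theorem map_eigen {L Ω : Type*} [Field L] [IsAlgClosed L] [NormedField Ω] (τ : L →+* Ω) (f : L[X]) :
    MonoidAlgebra.mapDomainRingHom ℕ (((normHom : Ω →*₀ ℝ) : Ω →* ℝ).comp (τ : L →* Ω)) (eigen f) =
      cls ((f.map τ).roots.map fun y => ‖y‖) := by
  unfold eigen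
  rw [map_cls, Splits.roots_map (IsAlgClosed.splits f), Multiset.map_map]
  rfl

end Pool.Agent.Y161.Ord
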